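import Pool.Agent.N103.OC.Final

/-!
# The Künneth standard conjecture and one Künneth component of a power

Let `X` be a smooth proper variety of dimension `d` which has, for all `s ≤ d`, cycles of codimension
`s` and `d - s` with nonzero intersection number (for example a projective variety: take the powers
of an ample divisor), and let `W` be a Weil cohomology theory with coefficient field `K`.

1. Let `n ≥ 4` and `3 d ≤ m ≤ 2 (n - 2) d + 1`, and suppose that `m` is even or that `X` has some
cohomology in odd degrees. Then ALL Künneth components of the diagonal of `X` are algebraic if and
only if the ONE component of degree `m` of the diagonal of `X ^ n` is algebraic; for instance the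
middle component, `m = n d`. (If `m` is odd and `X` has no odd cohomology, the component of degree
`m` of `X ^ n` is zero.)

2. Suppose that all varieties of the class `𝒱` have cycles as above and that `𝒱` contains a curve
with `H^1 ≠ 0`. If for arbitrarily large `n` the middle component `π_n` is algebraic for all the
varieties of dimension `n` in `𝒱`, then all Künneth components of all varieties in `𝒱` are algebraic.

Both statements hold for classes of cycles with rational coefficients and for their linear
combinations with coefficients in `K`.

Idea of the proof: by contraction with pairs of cycles on `n - 2` factors one gets the components of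
`X × X` in the degrees `m - 2 s`, and by contraction with pairs of cycles on a further factor those
of `X` in degrees congruent to `m` modulo two. The contraction of the component of degree `t` of
`X × X` with the diagonal of the second factor is `∑_i (-1)^(t - i) b_(t - i)(X) π_i`; in the degrees
`i` of the other parity this is a triangular system, as `t` varies, with the smallest nonzero odd
Betti number on the diagonal.
-/

open CategoryTheory AlgebraicGeometry

set_option autoImplicit false

universe u v

namespace Pool.Agent.Results.MP_a60482_ag.OneComponent

open Pool.Agent.H914 VarClass Obj WeilCohomology Pool.Agent.N103.OC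

/-- **All Künneth components of `X` are algebraic if and only if one component of one power of `X`
is, and it is enough to consider the middle components in infinitely many dimensions.** -/
theorem result {k : Type u} [Field k] {𝒱 : VarClass k} {ops : CycleOps 𝒱}
    (W : WeilCohomology.{u, v} ops) :
    (∀ X : 𝒱.Obj, DualCycles ops X → ∀ n m : ℕ, 4 ≤ n → 3 * X.dim ≤ m →
      m ≤ 2 * (n - 2) * X.dim + 1 → (Even m ∨ HasOdd W X) →
      (AllRational W X ↔ RationalComponent W (pw X n) m) ∧
      (AllSpan W X ↔ SpanComponent W (pw X n) m)) ∧
    ((∀ X : 𝒱.Obj, DualCycles ops X) → (∃ E : 𝒱.Obj, E.dim = 1 ∧ W.gr E 1 ≠ ⊥) →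
      ((∀ X : 𝒱.Obj, AllRational W X) ↔ MiddleRational W) ∧
      ((∀ X : 𝒱.Obj, AllSpan W X) ↔ MiddleSpan W)) := by
  simp only [AllRational, AllSpan, MiddleRational, MiddleSpan, rationalComponent_iff,
    spanComponent_iff]
  refine ⟨fun X hX n m hn hlow hup hodd =>
    ⟨(rat_class W).one_component (pairs_of_dual hX) hn hlow hup hodd,
      (kop_class W).one_component (pairs_of_dual hX) hn hlow hup hodd⟩, ?_⟩
  rintro hP ⟨E, hE, hE1⟩
  exact ⟨⟨fun h n₀ => ⟨n₀, le_rfl, fun V _ => h V n₀⟩, fun h =>
    (rat_class W).middle (fun X => pairs_of_dual (hP X)) hE hE1 h⟩,
    ⟨fun h n₀ => ⟨n₀, le_rfl, fun V _ => h V n₀⟩, fun h =>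
    (kop_class W).middle (fun X => pairs_of_dual (hP X)) hE hE1 h⟩⟩

end Pool.Agent.Results.MP_a60482_ag.OneComponent
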