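import Pool.Agent.N164.KC.Desc
import Pool.Agent.TH133.PW.KunDefs

/-!
# The Künneth standard conjecture in terms of ranks and traces

Let `X` be smooth and proper of dimension `n`, and `W` a Weil cohomology theory with coefficient field
`K`, `H(X) = ⊕ H^j(X)`. The algebraic cycles of codimension `n` on `X × X` act on `H(X)` by operators of
degree zero, the correspondences. There is no hypothesis on the standard conjectures, hard Lefschetz
is not used, and homological and numerical equivalence need not agree.

**One degree.** The projector `π_i` of `H(X)` onto `H^i(X)` is a `K`-combination of correspondences if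
and only if some `K`-combination `a` of correspondences has two of its traces: for all
correspondences `b`, the trace of `a b` on `H^i(X)` is the trace of `b`, and the trace of `a b` on
`⊕_{j ≠ i} H^j(X)` is zero.

**All degrees.** Let `r_i` be the rank of the form `(a, b) ↦ tr(a b | H^i(X))` on the correspondences.
The dimension of the space of rational correspondences of degree zero on `X` modulo numerical
equivalence is at most `∑ r_i`, and it is equal to `∑ r_i` if and only if all Künneth components of the
diagonal of `X` are `K`-combinations of classes of cycles, that is, `C(X)` is true for `W`.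

**All theories.** Let `𝒲` be a set of theories such that every correspondence has the same rational
trace on `H^j(X)` for all theories in `𝒲`, for all `j` (for instance the `ℓ`-adic theories, `ℓ` different
from the characteristic, by Deligne, Katz and Messing). If for one theory in `𝒲` the projector onto
`H^i(X)` is a `K`-combination of correspondences, then one cycle with rational coefficients induces
this projector for all the theories in `𝒲`.

The proof. The intersection number of `a` and the transpose of `b` is `∑ (-1)^i tr(a b | H^i(X))`
(Lefschetz), so that the functionals given by the correspondences modulo numerical equivalence are the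
alternating sums of the functionals given by the trace forms. Equality of the ranks says that the
components can be prescribed independently, which gives a combination `a` with the traces of `π_i`. Then
`1 - a` is nilpotent on `H^i(X)` and `a` is nilpotent on the sum of the other degrees, as all powers have
trace zero, and `1 - (1 - a ^ N) ^ N` is the projector for large `N`. For the third part a rational
functional is applied to the coefficients. The ranks are treated in the starting library
(`Pool.Agent.R907.formRank_eq_sum`, `exists_joint`, which no hand-in uses), for theories with rational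
traces which come from a reduction.
-/

set_option autoImplicit false

open CategoryTheory AlgebraicGeometry

universe u v

namespace Pool.Agent.Results.MP_a60482_ag.RankCriterion

open Pool.Agent.H914 Pool.Agent.R907 Pool.Agent.TH133.PW VarClass Obj WeilCohomology
open Pool.Agent.N164.KC

section Alg

variable {K : Type*} [Field K] {V : Type*} [AddCommGroup V] [Module K V]

/-- The operator `a` has two traces of the projector `P`, against all operators `b` in `S`:
`tr(a b P) = tr(1 b P)` and `tr(a b (1 - P)) = 0`; that is, the trace of `a b` on the image of `P` is the
trace of `b`, and the trace of `a b` on the kernel of `P` is zero. -/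
def TracesOfProjector (S : Set (Module.End K V)) (P a : Module.End K V) : Prop :=
  formFun P S a = formFun P S 1 ∧ formFun (1 - P) S a = 0

/-- Some linear combination of the operators in `S` has the two traces of the projector onto
`gr i`. -/
def TracesInSpan (gr : ℕ → Submodule K V) (i : ℕ) (S : Set (Module.End K V)) : Prop :=
  ∃ a ∈ Submodule.span K S, ∀ P : Module.End K V, IsProjector gr i P → TracesOfProjector S P a

/-- The sum over `i < m` of the ranks of the forms `(a, b) ↦ tr(a b | gr i)` on `S`; `Q i` is the
projector onto `gr i`. -/
noncomputable def sumRanks (Q : ℕ → Module.End K V) (m : ℕ) (S : Set (Module.End K V)) : ℕ :=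
  ∑ i ∈ Finset.range m, formRank (Q i) S

end Alg

variable {k : Type u} [Field k] {𝒱 : VarClass k} {ops : CycleOps 𝒱}

/-- For the theory `W` the projector of `H(X)` onto `H^i(X)` is induced by a combination of classes
of cycles of codimension `dim X` on `X × X`, with coefficients in the coefficient field. -/
def KunnethFor (W : WeilCohomology.{u, v} ops) (X : 𝒱.Obj) (i : ℕ) : Prop :=
  ∃ γ ∈ spanCycles W (X.prod X) X.dim, IsProjector (W.gr X) i (W.corr γ)

/-- Some combination `a` of correspondences of degree zero, with coefficients in the coefficient
field, has two traces of the projector of `H(X)` onto `H^i(X)`: for all correspondences `b` the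
trace of `a b` on `H^i(X)` is the trace of `b`, and the trace of `a b` on the sum of the `H^j(X)`,
`j ≠ i`, is zero. -/
def TracesFor (W : WeilCohomology.{u, v} ops) (X : 𝒱.Obj) (i : ℕ) : Prop :=
  TracesInSpan (W.gr X) i (corrOps W X)

/-- The dimension of the space of rational correspondences of degree zero modulo numerical equivalence
is at most the sum over the degrees `i ≤ 2 dim X` of the ranks of the forms
`(a, b) ↦ tr(a b | H^i(X))` on the correspondences of degree zero, and it is equal to the sum if and only
if all the Künneth projectors are combinations of classes of cycles. -/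
def RankStatement (W : WeilCohomology.{u, v} ops) (X : 𝒱.Obj) : Prop :=
  ∀ Q : ℕ → Module.End W.K (W.H X), (∀ i, IsProjector (W.gr X) i (Q i)) →
    numCorrRank ops X ≤ sumRanks Q (2 * X.dim + 1) (corrOps W X) ∧
    (numCorrRank ops X = sumRanks Q (2 * X.dim + 1) (corrOps W X) ↔
      ∀ i ≤ 2 * X.dim, KunnethFor W X i)

/-- **The Künneth standard conjecture in terms of traces and ranks.** -/
theorem result (X : 𝒱.Obj) :
    (∀ (W : WeilCohomology.{u, v} ops) (i : ℕ), KunnethFor W X i ↔ TracesFor W X i) ∧
    (∀ W : WeilCohomology.{u, v} ops, RankStatement W X) ∧
    ∀ 𝒲 : Set (WeilCohomology.{u, v} ops), SameTracesAll 𝒲 X → ∀ W ∈ 𝒲, ∀ i,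
      (KunnethFor W X i ↔ OneProjectorForAll 𝒲 X i) := by
  have hK : ∀ (W : WeilCohomology.{u, v} ops) (i : ℕ), KunnethFor W X i ↔
      bproj (W.isInternal X) {i} ∈ Submodule.span W.K (corrOps W X) := by
    intro W i
    rw [← span_iff W X {i}, KunnethFor]
    refine exists_congr fun γ => and_congr_right fun _ => ?_
    rw [isProjector_iff (W.isInternal X) i, isBlock_iff (W.isInternal X), bproj_singleton]
  have hcompl : ∀ (W : WeilCohomology.{u, v} ops) (i : ℕ),
      bproj (W.isInternal X) {i}ᶜ = 1 - proj (W.isInternal X) i := fun W i => by
    rw [← bproj_singleton, eq_sub_iff_add_eq', bproj_add_compl]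
  refine ⟨fun W i => ?_, fun W Q hQ => ?_, fun 𝒲 h𝒲 W hW i => ?_⟩
  · rw [hK]
    constructor
    · intro h
      refine ⟨_, h, fun P hP => ⟨funext fun b => ?_, funext fun b => ?_⟩⟩
      · obtain ⟨h1, h2⟩ := hasBlockTraces_bproj (W := W) (X := X) {i} b.1 b.2
        rw [(isProjector_iff (W.isInternal X) i).1 hP, ← bproj_singleton]
        unfold formFun
        rw [h1, one_mul]
      · obtain ⟨h1, h2⟩ := hasBlockTraces_bproj (W := W) (X := X) {i} b.1 b.2
        rw [(isProjector_iff (W.isInternal X) i).1 hP, ← hcompl]
        exact h2
    · rintro ⟨a, ha, h⟩
      refine bproj_mem_of_traces ha fun b hb => ?_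
      obtain ⟨h1, h2⟩ := h _ ((isProjector_iff (W.isInternal X) i).2 rfl)
      rw [hcompl, bproj_singleton]
      refine ⟨?_, congrFun h2 ⟨b, hb⟩⟩
      have h3 := congrFun h1 ⟨b, hb⟩
      unfold formFun at h3
      rwa [one_mul] at h3
  · have hset : ∀ s : ℕ, bproj (W.isInternal X) {j | id j = s} = Q s := by
      intro s
      rw [(isProjector_iff (W.isInternal X) s).1 (hQ s), ← bproj_singleton]
      rfl
    obtain ⟨h1, h2⟩ := rank_main (W := W) (X := X) id (2 * X.dim + 1)
      (fun j hj => Nat.lt_succ_of_le hj) (fun i _ j _ h => by rw [show i = j from h])
    rw [Finset.sum_congr rfl fun s _ => by rw [hset s]] at h1 h2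
    refine ⟨h1, Iff.symm (Iff.trans ?_ h2)⟩
    constructor
    · intro h s hs
      exact (hK W s).1 (h s (Nat.le_of_lt_succ hs))
    · intro h s hs
      exact (hK W s).2 (h s (Nat.lt_succ_of_le hs))
  · rw [hK]
    constructor
    · intro h
      obtain ⟨z, hz, hz2⟩ := one_of_span (fun j => sameTraces_mem (h𝒲 j) hW hW) h
      refine ⟨z, hz, fun W' hW' => ?_⟩
      have h1 := (isBlock_iff (W'.isInternal X)).1
        (hz2 W' fun j => sameTraces_mem (h𝒲 j) hW hW')
      rw [bproj_singleton] at h1
      exact (isProjector_iff (W'.isInternal X) i).2 h1
    · rintro ⟨z, hz, h⟩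
      exact (hK W i).1 ⟨W.cl _ z, Submodule.subset_span ⟨X.dim, rfl, z, hz, rfl⟩, h W hW⟩

end Pool.Agent.Results.MP_a60482_ag.RankCriterion
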