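import Pool.Agent.N190.GS2.Main

/-!
# The conjecture C for hyperplane sections of products

Let `X` be a variety of dimension `n ≥ 3` with a divisor `D`. One generic hyperplane section `Z` (of
dimension `2n - 3`) of `X × A`, `A` an abelian variety of dimension `n - 2`, decides whether the
conjecture C holds for `X` and for the hyperplane sections (generic ones and their smooth
specializations) of all products `X × Q`, where `Q` is any variety satisfying the conjecture B; this
is the case if and only if C holds for `X` and the left inverses of the powers `ξ ^ (n - 1 - j)` on
`H^j(X)` are algebraic for `j ≤ n - 2`; and it is the case if C holds for `X` and the conjecture B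
holds for `X` in the degrees `≤ n - 2`, for example for every threefold over the algebraic closure of
a finite field.
-/

set_option autoImplicit false

open CategoryTheory AlgebraicGeometry

universe u v

namespace Pool.Agent.Results.MP_a60482_ag.SectionsOfProducts

open Pool.Agent.H914 Pool.Agent.H447 Pool.Agent.N190.GS2

variable {k : Type u} [Field k] {𝒱 : VarClass k} {ops : CycleOps 𝒱}

/-- **One generic hyperplane section decides the conjecture C for the hyperplane sections of `X × Q`,
for all `Q` satisfying the conjecture B.** -/
theorem result (W : WeilCohomology.{u, v} ops) {X : 𝒱.Obj} {D : X.Cycles} (hD : X.IsCyc 1 D) :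
    (∀ S : TestSection W D, 3 ≤ X.dim →
      List.TFAE [KunnethStd S.T.W S.Z,
        KunnethStd W X ∧ SignStd S.T.W S.Z,
        KunnethStd W X ∧ InvertsBelow W D,
        KunnethStd W X ∧ KunnethForSections W D]) ∧
    (HardLefschetz W X D → KunnethStd W X → InverseUpTo W D → KunnethForSections W D) :=
  ⟨fun S hX => one_section hD S hX, fun hHL hK hI => kunneth_of_inverse hD hHL hK hI⟩

end Pool.Agent.Results.MP_a60482_ag.SectionsOfProducts
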